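import Mathlib

/-! A Bogolyubov-type lemma for sets of small doubling in a finite abelian group. -/

namespace Pool.Agent.K4H16.GS
open Finset
open scoped Pointwise Combinatorics.Additive ComplexConjugate

section
variable {Γ : Type} [AddCommGroup Γ] [Fintype Γ] [DecidableEq Γ]

/-- the sum of a character over `S` -/
noncomputable def F (S : Finset Γ) (χ : AddChar Γ ℂ) : ℂ := ∑ s ∈ S, χ s

theorem F_mul_conj (S : Finset Γ) (χ : AddChar Γ ℂ) :
    F S χ * conj (F S χ) = ∑ p ∈ S ×ˢ S, χ (p.1 - p.2) := by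
  unfold F
  rw [map_sum, sum_mul_sum, sum_product]
  refine sum_congr rfl fun a _ => sum_congr rfl fun b _ => ?_
  rw [← AddChar.map_neg_eq_conj, ← AddChar.map_add_eq_mul, sub_eq_add_neg]

theorem normSq_F (S : Finset Γ) (χ : AddChar Γ ℂ) :
    F S χ * conj (F S χ) = ((‖F S χ‖ ^ 2 : ℝ) : ℂ) := by
  rw [Complex.mul_conj, Complex.normSq_eq_norm_sq]

theorem sum_sq (S : Finset Γ) :
    ∑ χ : AddChar Γ ℂ, ‖F S χ‖ ^ 2 = (Fintype.card Γ : ℝ) * S.card := by
  have h : ((∑ χ : AddChar Γ ℂ, ‖F S χ‖ ^ 2 : ℝ) : ℂ) = ((Fintype.card Γ : ℝ) * S.card : ℝ) := by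
    rw [Complex.ofReal_sum]
    calc ∑ χ : AddChar Γ ℂ, ((‖F S χ‖ ^ 2 : ℝ) : ℂ)
        = ∑ χ : AddChar Γ ℂ, ∑ p ∈ S ×ˢ S, χ (p.1 - p.2) := by
          refine sum_congr rfl fun χ _ => ?_
          rw [← normSq_F, F_mul_conj]
      _ = ∑ p ∈ S ×ˢ S, ∑ χ : AddChar Γ ℂ, χ (p.1 - p.2) := sum_comm
      _ = ∑ p ∈ S ×ˢ S, if p.1 = p.2 then (Fintype.card Γ : ℂ) else 0 := by
          refine sum_congr rfl fun p _ => ?_
          rw [AddChar.sum_apply_eq_ite]
          simp only [sub_eq_zero]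
      _ = _ := by
          rw [sum_product]
          simp only [sum_ite_eq]
          rw [sum_ite_mem, inter_self, sum_const, nsmul_eq_mul]
          push_cast
          ring
  exact_mod_cast h

theorem sum_fourth (S : Finset Γ) (y : Γ) :
    ∑ χ : AddChar Γ ℂ, ((‖F S χ‖ ^ 4 : ℝ) : ℂ) * χ y = (Fintype.card Γ : ℂ) *
      (((S ×ˢ S) ×ˢ (S ×ˢ S)).filter fun x => x.1.1 + x.2.1 + y = x.1.2 + x.2.2).card := by
  calc ∑ χ : AddChar Γ ℂ, ((‖F S χ‖ ^ 4 : ℝ) : ℂ) * χ y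
      = ∑ χ : AddChar Γ ℂ, ∑ x ∈ (S ×ˢ S) ×ˢ (S ×ˢ S),
          χ (x.1.1 - x.1.2 + (x.2.1 - x.2.2) + y) := by
        refine sum_congr rfl fun χ _ => ?_
        have h4 : ((‖F S χ‖ ^ 4 : ℝ) : ℂ) = (F S χ * conj (F S χ)) * (F S χ * conj (F S χ)) := by
          rw [normSq_F]
          push_cast
          ring
        rw [h4, F_mul_conj, sum_mul_sum, sum_product (s := S ×ˢ S), sum_mul]
        refine sum_congr rfl fun p _ => ?_
        rw [sum_mul]
        refine sum_congr rfl fun q _ => ?_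
        rw [AddChar.map_add_eq_mul, AddChar.map_add_eq_mul]
    _ = ∑ x ∈ (S ×ˢ S) ×ˢ (S ×ˢ S), ∑ χ : AddChar Γ ℂ,
          χ (x.1.1 - x.1.2 + (x.2.1 - x.2.2) + y) := sum_comm
    _ = ∑ x ∈ (S ×ˢ S) ×ˢ (S ×ˢ S), if x.1.1 + x.2.1 + y = x.1.2 + x.2.2 then
          (Fintype.card Γ : ℂ) else 0 := by
        refine sum_congr rfl fun x _ => ?_
        rw [AddChar.sum_apply_eq_ite]
        have : (x.1.1 - x.1.2 + (x.2.1 - x.2.2) + y = 0) ↔ (x.1.1 + x.2.1 + y = x.1.2 + x.2.2) := by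
          rw [← sub_eq_zero (a := x.1.1 + x.2.1 + y)]
          have : x.1.1 - x.1.2 + (x.2.1 - x.2.2) + y = x.1.1 + x.2.1 + y - (x.1.2 + x.2.2) := by
            abel
          rw [this]
        simp only [this]
    _ = _ := by
        rw [← sum_filter, sum_const, nsmul_eq_mul]
        ring

end

/-- the Bogolyubov-type lemma -/
theorem bogo (K : ℕ) (Γ : Type) [AddCommGroup Γ] [Fintype Γ] [DecidableEq Γ] (S : Finset Γ)
    (hS : S.Nonempty) (hK : (S + S).card ≤ K * S.card) (x : Γ)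
    (hx : ∀ χ : AddChar Γ ℂ, (S.card : ℝ) ≤ 2 * K * ‖∑ s ∈ S, χ s‖ →
      |Complex.arg (χ x)| ≤ 1 / 2) : x ∈ (S + S) - (S + S) := by
  by_contra hcon
  have hspos : (0 : ℝ) < S.card := by exact_mod_cast hS.card_pos
  have hKne : K ≠ 0 := by
    rintro rfl
    rw [zero_mul] at hK
    have := (hS.add hS).card_pos
    omega
  have hK1 : (1 : ℝ) ≤ K := by exact_mod_cast Nat.pos_of_ne_zero hKne
  have hΓpos : (0 : ℝ) < Fintype.card Γ := by
    have : 0 < Fintype.card Γ := Fintype.card_pos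
    exact_mod_cast this
  -- the sum at x vanishes
  have h0 : ∑ χ : AddChar Γ ℂ, ((‖F S χ‖ ^ 4 : ℝ) : ℂ) * χ x = 0 := by
    rw [sum_fourth]
    have : (((S ×ˢ S) ×ˢ (S ×ˢ S)).filter fun z => z.1.1 + z.2.1 + x = z.1.2 + z.2.2) = ∅ := by
      rw [filter_eq_empty_iff]
      intro z hz heq
      apply hcon
      simp only [mem_product] at hz
      have : x = (z.1.2 + z.2.2) - (z.1.1 + z.2.1) := by
        rw [← heq]; abel
      rw [this]
      exact sub_mem_sub (add_mem_add hz.1.2 hz.2.2) (add_mem_add hz.1.1 hz.2.1)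
    rw [this]
    simp
  have h0' : ∑ χ : AddChar Γ ℂ, ‖F S χ‖ ^ 4 * (χ x).re = 0 := by
    have := congrArg Complex.re h0
    rw [Complex.re_sum] at this
    simp only [Complex.re_ofReal_mul, Complex.zero_re] at this
    exact this
  -- the energy
  have hE : (Fintype.card Γ : ℝ) * (S.card : ℝ) ^ 3 ≤ K * ∑ χ : AddChar Γ ℂ, ‖F S χ‖ ^ 4 := by
    have h1 := sum_fourth S 0
    have h2 : ∑ χ : AddChar Γ ℂ, ‖F S χ‖ ^ 4 = (Fintype.card Γ : ℝ) * (E[S, S] : ℕ) := by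
      have h3 : ((∑ χ : AddChar Γ ℂ, ‖F S χ‖ ^ 4 : ℝ) : ℂ) =
          ((Fintype.card Γ : ℝ) * (E[S, S] : ℕ) : ℝ) := by
        rw [Complex.ofReal_sum]
        calc _ = ∑ χ : AddChar Γ ℂ, ((‖F S χ‖ ^ 4 : ℝ) : ℂ) * χ 0 := by simp
          _ = _ := h1
          _ = _ := by
            simp only [add_zero]
            unfold addEnergy
            push_cast
            rfl
      exact_mod_cast h3
    rw [h2]
    have h4 := le_card_add_mul_addEnergy S S
    have h5 : ((S.card : ℝ) ^ 2 * (S.card : ℝ) ^ 2) ≤ (S + S).card * (E[S, S] : ℕ) := by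
      exact_mod_cast h4
    have h6 : ((S + S).card : ℝ) ≤ K * S.card := by exact_mod_cast hK
    have h7 : (S.card : ℝ) ^ 2 * (S.card : ℝ) ^ 2 ≤ K * S.card * (E[S, S] : ℕ) :=
      h5.trans (mul_le_mul_of_nonneg_right h6 (Nat.cast_nonneg _))
    have h8 : (S.card : ℝ) ^ 3 ≤ K * (E[S, S] : ℕ) := by
      have : (S.card : ℝ) ^ 3 * S.card ≤ (K * (E[S, S] : ℕ)) * S.card := by nlinarith
      exact le_of_mul_le_mul_right this hspos
    nlinarith
  -- pointwise lower bound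
  have hpt : ∀ χ : AddChar Γ ℂ, 7 / 8 * ‖F S χ‖ ^ 4 -
      15 / 8 * ((S.card : ℝ) / (2 * K)) ^ 2 * ‖F S χ‖ ^ 2 ≤ ‖F S χ‖ ^ 4 * (χ x).re := by
    intro χ
    have hn : ‖χ x‖ = 1 := AddChar.norm_apply χ x
    by_cases hbig : (S.card : ℝ) ≤ 2 * K * ‖∑ s ∈ S, χ s‖
    · have h1 := hx χ hbig
      have h2 : (χ x).re = Real.cos (Complex.arg (χ x)) := by
        have := Complex.norm_mul_cos_arg (χ x)
        rw [hn, one_mul] at this
        exact this.symm
      have h3 : 7 / 8 ≤ (χ x).re := by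
        rw [h2]
        have h4 := Real.one_sub_sq_div_two_le_cos (x := Complex.arg (χ x))
        have h5 : Complex.arg (χ x) ^ 2 ≤ (1 / 2) ^ 2 := by
          rw [← sq_abs]
          exact pow_le_pow_left₀ (abs_nonneg _) h1 2
        linarith
      have h6 : 0 ≤ ‖F S χ‖ ^ 4 := by positivity
      have h7 : 0 ≤ 15 / 8 * ((S.card : ℝ) / (2 * K)) ^ 2 * ‖F S χ‖ ^ 2 := by positivity
      nlinarith
    · push Not at hbig
      have h1 : ‖F S χ‖ ≤ (S.card : ℝ) / (2 * K) := by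
        rw [le_div_iff₀ (by positivity)]
        have : ‖F S χ‖ = ‖∑ s ∈ S, χ s‖ := rfl
        rw [this]
        linarith
      have h2 : -1 ≤ (χ x).re := by
        have := Complex.abs_re_le_norm (χ x)
        rw [hn] at this
        exact (abs_le.mp this).1
      have h3 : ‖F S χ‖ ^ 2 ≤ ((S.card : ℝ) / (2 * K)) ^ 2 :=
        pow_le_pow_left₀ (norm_nonneg _) h1 2
      have h4 : ‖F S χ‖ ^ 4 ≤ ((S.card : ℝ) / (2 * K)) ^ 2 * ‖F S χ‖ ^ 2 := by
        calc ‖F S χ‖ ^ 4 = ‖F S χ‖ ^ 2 * ‖F S χ‖ ^ 2 := by ring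
          _ ≤ _ := mul_le_mul_of_nonneg_right h3 (by positivity)
      have h6 : 0 ≤ ‖F S χ‖ ^ 4 := by positivity
      nlinarith
  have hsum := sum_le_sum fun χ (_ : χ ∈ (univ : Finset (AddChar Γ ℂ))) => hpt χ
  rw [h0', sum_sub_distrib, ← mul_sum, ← mul_sum, sum_sq] at hsum
  have h9 : 15 / 8 * ((S.card : ℝ) / (2 * K)) ^ 2 * ((Fintype.card Γ : ℝ) * S.card) =
      15 / (32 * K ^ 2) * ((Fintype.card Γ : ℝ) * (S.card : ℝ) ^ 3) := by
    field_simp
    ring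
  rw [h9] at hsum
  have hKpos : (0 : ℝ) < K := by linarith
  have hG : 0 < (Fintype.card Γ : ℝ) * (S.card : ℝ) ^ 3 := by positivity
  have h10 : 15 / (32 * (K : ℝ) ^ 2) * ((Fintype.card Γ : ℝ) * (S.card : ℝ) ^ 3) * K =
      15 / (32 * K) * ((Fintype.card Γ : ℝ) * (S.card : ℝ) ^ 3) := by
    field_simp
  have h11 : 15 / (32 * (K : ℝ)) ≤ 15 / 32 := by
    apply div_le_div_of_nonneg_left (by norm_num) (by norm_num)
    linarith
  have h12 : 15 / (32 * (K : ℝ)) * ((Fintype.card Γ : ℝ) * (S.card : ℝ) ^ 3) ≤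
      15 / 32 * ((Fintype.card Γ : ℝ) * (S.card : ℝ) ^ 3) :=
    mul_le_mul_of_nonneg_right h11 hG.le
  have h13 := mul_le_mul_of_nonneg_right hsum hKpos.le
  rw [sub_mul, h10] at h13
  nlinarith

end Pool.Agent.K4H16.GS
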