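import Mathlib

/-! Sanders' almost periods for a set of small doubling in an abelian group. -/

namespace Pool.Agent.K4H16.GS
open Finset
open scoped Pointwise

/-- the conclusion of the theorem -/
def Concl (η : ℝ) (L : ℕ) {Γ : Type} [AddCommGroup Γ] [DecidableEq Γ] (B : Finset Γ) : Prop :=
  ∃ S X : Finset Γ, B.card ≤ S.card ∧ S ⊆ B + B ∧ B.card ≤ L * X.card ∧
    ∀ x ∈ X, (1 - η) * (S.card : ℝ) ≤ ((S.filter fun s => s - x ∈ S).card : ℝ)

theorem Concl.mono {η : ℝ} {L L' : ℕ} (h : L ≤ L') {Γ : Type} [AddCommGroup Γ] [DecidableEq Γ]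
    {B : Finset Γ} (hc : Concl η L B) : Concl η L' B := by
  obtain ⟨S, X, h1, h2, h3, h4⟩ := hc
  exact ⟨S, X, h1, h2, h3.trans (Nat.mul_le_mul_right _ h), h4⟩

theorem count_pairs {Γ : Type} [AddCommGroup Γ] [DecidableEq Γ] (B B' : Finset Γ)
    (hsym : -B = B) (hB' : B' ⊆ B) :
    B'.card ^ 2 ≤ ∑ x ∈ B + B, (B'.filter fun b => b - x ∈ B').card := by
  have hmaps : ∀ p ∈ B' ×ˢ B', p.1 - p.2 ∈ B + B := by
    intro p hp
    rw [mem_product] at hp
    rw [sub_eq_add_neg]
    refine add_mem_add (hB' hp.1) ?_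
    rw [← hsym]
    exact neg_mem_neg (hB' hp.2)
  have h1 := card_eq_sum_card_fiberwise hmaps
  rw [card_product, ← sq] at h1
  rw [h1]
  apply sum_le_sum
  intro x _
  apply card_le_card_of_injOn (fun p => p.1)
  · intro p hp
    simp only [coe_filter, mem_product, Set.mem_setOf_eq] at hp
    simp only [coe_filter, Set.mem_setOf_eq]
    refine ⟨hp.1.1, ?_⟩
    have : p.1 - x = p.2 := by rw [← hp.2]; abel
    rw [this]
    exact hp.1.2
  · intro p hp q hq hpq
    simp only [coe_filter, mem_product, Set.mem_setOf_eq] at hp hq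
    have h2 : p.1 - p.2 = q.1 - q.2 := by rw [hp.2, hq.2]
    have h3 : p.1 = q.1 := hpq
    rw [h3] at h2
    exact Prod.ext h3 (by simpa using h2)

theorem step (K : ℕ) (η : ℝ) (hη : 0 < η) (hη1 : η < 1) (n : ℕ) :
    ∀ t : ℝ, 0 < t → ∃ L : ℕ, ∀ (Γ : Type) [AddCommGroup Γ] [DecidableEq Γ] (B B' : Finset Γ),
      B.Nonempty → -B = B → (B + B).card ≤ K * B.card → B' ⊆ B →
      t * (B.card : ℝ) ≤ B'.card → (1 - η) ^ n * ((B' + B).card : ℝ) < B.card →
      Concl η L B := by
  induction n with
  | zero =>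
    intro t ht
    refine ⟨0, ?_⟩
    intro Γ _ _ B B' hB hsym hK hB' htB hn
    exfalso
    have hBpos : (0 : ℝ) < B.card := by exact_mod_cast hB.card_pos
    have hB'pos : (0 : ℝ) < B'.card := lt_of_lt_of_le (mul_pos ht hBpos) htB
    have hB'ne : B'.Nonempty := by
      rw [← card_pos]; exact_mod_cast hB'pos
    have h1 : B.card ≤ (B' + B).card := card_le_card_add_left hB'ne
    have h2 : (B.card : ℝ) ≤ (B' + B).card := by exact_mod_cast h1
    rw [pow_zero, one_mul] at hn
    linarith
  | succ n ih =>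
    intro t ht
    by_cases hK0 : K = 0
    · refine ⟨0, ?_⟩
      intro Γ _ _ B B' hB hsym hK hB' htB hn
      exfalso
      rw [hK0, zero_mul] at hK
      have : 0 < (B + B).card := (hB.add hB).card_pos
      omega
    have hKpos : (0 : ℝ) < K := by exact_mod_cast Nat.pos_of_ne_zero hK0
    obtain ⟨L0, hL0⟩ := ih (t ^ 2 / (2 * K)) (by positivity)
    refine ⟨max L0 ⌈2 / t ^ 2⌉₊, ?_⟩
    intro Γ _ _ B B' hB hsym hK hB' htB hn
    have hBpos : (0 : ℝ) < B.card := by exact_mod_cast hB.card_pos
    have hB'pos : (0 : ℝ) < B'.card := lt_of_lt_of_le (mul_pos ht hBpos) htB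
    have hB'ne : B'.Nonempty := by
      rw [← card_pos]; exact_mod_cast hB'pos
    set I : Γ → Finset Γ := fun x => B'.filter fun b => b - x ∈ B' with hI
    set X : Finset Γ := (B + B).filter fun x => t ^ 2 / (2 * K) * (B.card : ℝ) ≤ (I x).card with hX
    by_cases hgood : ∀ x ∈ X, (1 - η) * ((B' + B).card : ℝ) ≤ ((I x) + B).card
    · apply Concl.mono (le_max_right L0 _)
      refine ⟨B' + B, X, card_le_card_add_left hB'ne, add_subset_add_right hB', ?_, ?_⟩
      · -- counting
        have h1 := count_pairs B B' hsym hB'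
        have h1' : (B'.card : ℝ) ^ 2 ≤ ∑ x ∈ B + B, ((I x).card : ℝ) := by exact_mod_cast h1
        have h2 : ∑ x ∈ B + B, ((I x).card : ℝ) ≤ X.card * (B.card : ℝ) +
            (B + B).card * (t ^ 2 / (2 * K) * (B.card : ℝ)) := by
          rw [← sum_filter_add_sum_filter_not (B + B)
            (fun x => t ^ 2 / (2 * K) * (B.card : ℝ) ≤ (I x).card)]
          apply add_le_add
          · have : ∀ x ∈ X, ((I x).card : ℝ) ≤ B.card := by
              intro x _
              exact_mod_cast card_le_card ((filter_subset _ _).trans hB')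
            have h3 := sum_le_card_nsmul X _ _ this
            simpa [nsmul_eq_mul] using h3
          · have : ∀ x ∈ (B + B).filter (fun x => ¬ t ^ 2 / (2 * K) * (B.card : ℝ) ≤ (I x).card),
                ((I x).card : ℝ) ≤ t ^ 2 / (2 * K) * (B.card : ℝ) := by
              intro x hx
              rw [mem_filter] at hx
              exact (not_le.mp hx.2).le
            have h3 := sum_le_card_nsmul _ _ _ this
            rw [nsmul_eq_mul] at h3
            refine h3.trans ?_
            apply mul_le_mul_of_nonneg_right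
            · exact_mod_cast card_le_card (filter_subset _ _)
            · positivity
        have h3 : ((B + B).card : ℝ) * (t ^ 2 / (2 * K) * (B.card : ℝ)) ≤
            t ^ 2 / 2 * (B.card : ℝ) ^ 2 := by
          have h4 : ((B + B).card : ℝ) ≤ K * B.card := by exact_mod_cast hK
          calc ((B + B).card : ℝ) * (t ^ 2 / (2 * K) * (B.card : ℝ))
              ≤ (K * B.card) * (t ^ 2 / (2 * K) * (B.card : ℝ)) :=
                mul_le_mul_of_nonneg_right h4 (by positivity)
            _ = t ^ 2 / 2 * (B.card : ℝ) ^ 2 := by field_simp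
        have h5 : (t * B.card) ^ 2 ≤ (B'.card : ℝ) ^ 2 :=
          pow_le_pow_left₀ (by positivity) htB 2
        have h6 : t ^ 2 / 2 * (B.card : ℝ) ^ 2 ≤ X.card * (B.card : ℝ) := by nlinarith
        have h7 : t ^ 2 / 2 * (B.card : ℝ) ≤ X.card := by
          have : (t ^ 2 / 2 * (B.card : ℝ)) * B.card ≤ X.card * (B.card : ℝ) := by nlinarith
          exact le_of_mul_le_mul_right this hBpos
        have h8 : (B.card : ℝ) ≤ 2 / t ^ 2 * X.card := by
          have ht2 : (0 : ℝ) < t ^ 2 := by positivity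
          rw [div_mul_eq_mul_div, le_div_iff₀ ht2]
          nlinarith
        have h9 : (B.card : ℝ) ≤ (⌈2 / t ^ 2⌉₊ : ℝ) * X.card :=
          h8.trans (mul_le_mul_of_nonneg_right (Nat.le_ceil _) (Nat.cast_nonneg _))
        exact_mod_cast h9
      · intro x hx
        refine (hgood x hx).trans ?_
        have : (I x) + B ⊆ (B' + B).filter fun s => s - x ∈ B' + B := by
          intro s hs
          rw [mem_add] at hs
          obtain ⟨a, ha, b, hb, rfl⟩ := hs
          rw [hI, mem_filter] at ha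
          rw [mem_filter]
          refine ⟨add_mem_add ha.1 hb, ?_⟩
          have h1 : a + b - x = (a - x) + b := by abel
          rw [h1]
          exact add_mem_add ha.2 hb
        exact_mod_cast card_le_card this
    · push Not at hgood
      obtain ⟨x, hx, hlt⟩ := hgood
      apply Concl.mono (le_max_left _ ⌈2 / t ^ 2⌉₊)
      rw [hX, mem_filter] at hx
      refine hL0 Γ B (I x) hB hsym hK ((filter_subset _ _).trans hB') hx.2 ?_
      calc (1 - η) ^ n * (((I x) + B).card : ℝ)
          ≤ (1 - η) ^ n * ((1 - η) * ((B' + B).card : ℝ)) := by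
            apply mul_le_mul_of_nonneg_left hlt.le
            exact pow_nonneg (by linarith) _
        _ = (1 - η) ^ (n + 1) * ((B' + B).card : ℝ) := by ring
        _ < B.card := hn

/-- Sanders' theorem. -/
theorem sanders (K : ℕ) (η : ℝ) (hη : 0 < η) : ∃ L : ℕ, ∀ (Γ : Type) [AddCommGroup Γ]
    [DecidableEq Γ] (B : Finset Γ), B.Nonempty → -B = B → (B + B).card ≤ K * B.card →
    ∃ S X : Finset Γ, B.card ≤ S.card ∧ S ⊆ B + B ∧ B.card ≤ L * X.card ∧
      ∀ x ∈ X, (1 - η) * (S.card : ℝ) ≤ ((S.filter fun s => s - x ∈ S).card : ℝ) := by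
  by_cases hη1 : η < 1
  · obtain ⟨n, hn⟩ := exists_pow_lt_of_lt_one (show (0 : ℝ) < 1 / (K + 1) by positivity)
      (show 1 - η < 1 by linarith)
    obtain ⟨L, hL⟩ := step K η hη hη1 n 1 one_pos
    refine ⟨L, ?_⟩
    intro Γ _ _ B hB hsym hK
    refine hL Γ B B hB hsym hK (Subset.refl _) (by rw [one_mul]) ?_
    have hBpos : (0 : ℝ) < B.card := by exact_mod_cast hB.card_pos
    have h4 : ((B + B).card : ℝ) ≤ K * B.card := by exact_mod_cast hK
    have h5 : (0 : ℝ) ≤ (1 - η) ^ n := pow_nonneg (by linarith) _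
    calc (1 - η) ^ n * ((B + B).card : ℝ) ≤ (1 - η) ^ n * (K * B.card) :=
          mul_le_mul_of_nonneg_left h4 h5
      _ ≤ 1 / (K + 1) * (K * B.card) := by
          apply mul_le_mul_of_nonneg_right hn.le
          positivity
      _ < B.card := by
          rw [div_mul_eq_mul_div, one_mul, div_lt_iff₀ (by positivity)]
          nlinarith
  · refine ⟨1, ?_⟩
    intro Γ _ _ B hB hsym hK
    refine ⟨B + B, B, card_le_card_add_left hB, Subset.refl _, by simp, ?_⟩
    intro x _
    have h1 : (1 - η) * ((B + B).card : ℝ) ≤ 0 :=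
      mul_nonpos_of_nonpos_of_nonneg (by linarith) (Nat.cast_nonneg _)
    exact h1.trans (Nat.cast_nonneg _)

end Pool.Agent.K4H16.GS
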