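import Pool.Agent.K4H78.GA.Loc
import Pool.Agent.K4H16.GS.Sanders
import Pool.Agent.K4H16.GS.Bogo

/-! Bohr structure inside `8 B` for a symmetric set of small tripling. -/

set_option autoImplicit false

namespace Pool.Agent.K4H16.GS
open Finset Pool.Agent.TH346.CG Pool.Agent.K4H78.GA
open scoped Pointwise ComplexConjugate

section sumsets

variable {Γ : Type} [AddCommGroup Γ] [DecidableEq Γ]

theorem ks_eq_nsmul (m : ℕ) (B : Finset Γ) : ks m B = m • B := by
  induction m with
  | zero => rw [zero_nsmul]; rfl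
  | succ m ih => rw [succ_nsmul, ← ih]; rfl

theorem neg_ks (B : Finset Γ) (hsym : -B = B) (m : ℕ) : -(ks m B) = ks m B := by
  induction m with
  | zero =>
    ext x
    simp [ks]
  | succ m ih =>
    ext x
    have key : ∀ x, x ∈ ks (m + 1) B → -x ∈ ks (m + 1) B := by
      intro x hx
      obtain ⟨u, hu, v, hv, rfl⟩ := mem_add.mp (show x ∈ ks m B + B from hx)
      refine mem_add.mpr ⟨-u, ?_, -v, ?_, by abel⟩
      · rw [← ih]; exact neg_mem_neg hu
      · rw [← hsym]; exact neg_mem_neg hv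
    rw [Finset.mem_neg']
    constructor
    · intro h
      have := key _ h
      rwa [neg_neg] at this
    · exact key x

theorem card_ks_le (K : ℕ) (B : Finset Γ) (hsym : -B = B) (h3 : (B + B + B).card ≤ K * B.card)
    (m : ℕ) (hm : 3 ≤ m) : (ks m B).card ≤ K ^ (m - 2) * B.card := by
  have h : ((3 • B).card : ℝ) ≤ (K : ℝ) * B.card := by
    rw [show 3 • B = B + B + B by rw [succ_nsmul, two_nsmul]]
    exact_mod_cast h3
  have := small_nsmul_of_small_tripling hm h hsym
  rw [ks_eq_nsmul]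
  exact_mod_cast this

end sumsets

section args

variable {Γ : Type} [AddCommGroup Γ] [Fintype Γ]

/-- the argument of the value of a character -/
noncomputable def A (χ : AddChar Γ ℂ) (x : Γ) : ℝ := Complex.arg (χ x)

theorem A_zero (χ : AddChar Γ ℂ) : A χ 0 = 0 := by
  unfold A
  rw [AddChar.map_zero_eq_one, Complex.arg_one]

theorem ne0 (χ : AddChar Γ ℂ) (x : Γ) : χ x ≠ 0 := by
  intro h
  have := AddChar.norm_apply χ x
  rw [h, norm_zero] at this
  exact zero_ne_one this

theorem A_add (χ : AddChar Γ ℂ) (x y : Γ) (h : |A χ x| + |A χ y| < Real.pi) :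
    A χ (x + y) = A χ x + A χ y := by
  unfold A at *
  rw [AddChar.map_add_eq_mul]
  apply Complex.arg_mul (ne0 χ x) (ne0 χ y)
  have h1 := abs_add_le (Complex.arg (χ x)) (Complex.arg (χ y))
  have h2 := abs_lt.mp (lt_of_le_of_lt h1 h)
  exact ⟨h2.1, h2.2.le⟩

theorem A_neg (χ : AddChar Γ ℂ) (x : Γ) (h : |A χ x| < Real.pi) : A χ (-x) = -A χ x := by
  unfold A at *
  rw [AddChar.map_neg_eq_conj, Complex.arg_conj, if_neg]
  exact (abs_lt.mp h).2.ne

theorem A_sub (χ : AddChar Γ ℂ) (x y : Γ) (h : |A χ x| + |A χ y| < Real.pi) :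
    A χ (x - y) = A χ x - A χ y := by
  have hy : |A χ y| < Real.pi := by
    have := abs_nonneg (A χ x)
    linarith
  rw [sub_eq_add_neg, A_add, A_neg χ y hy, sub_eq_add_neg]
  rw [A_neg χ y hy, abs_neg]
  exact h

theorem A_nsmul (χ : AddChar Γ ℂ) (x : Γ) (m : ℕ) (h : m * |A χ x| < Real.pi) :
    A χ (m • x) = m * A χ x := by
  induction m with
  | zero => simp [A_zero]
  | succ m ih =>
    have h0 := abs_nonneg (A χ x)
    push_cast at h ⊢
    have h1 : (m : ℝ) * |A χ x| < Real.pi := by nlinarith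
    have h2 := ih h1
    rw [succ_nsmul, A_add, h2]
    · ring
    · rw [h2, abs_mul, Nat.abs_cast]
      nlinarith

theorem abs_A_le (χ : AddChar Γ ℂ) (x : Γ) : |A χ x| ≤ Real.pi / 2 * ‖1 - χ x‖ := by
  have h1 := (Complex.norm_sub_mem_Icc_angle (AddChar.norm_apply χ x)
    (show ‖(1 : ℂ)‖ = 1 by simp)).1
  rw [Complex.angle_one_right (ne0 χ x)] at h1
  have h2 : |A χ x| = |Complex.arg (χ x)| := rfl
  have h3 : ‖1 - χ x‖ = ‖χ x - 1‖ := norm_sub_rev _ _
  rw [h2, h3]
  have hpi := Real.pi_pos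
  calc |Complex.arg (χ x)| = Real.pi / 2 * (2 / Real.pi * |Complex.arg (χ x)|) := by
        field_simp
    _ ≤ _ := by
        apply mul_le_mul_of_nonneg_left h1
        positivity

/-- almost periods have characters of large Fourier coefficient close to `1` -/
theorem almost_period [DecidableEq Γ] (S : Finset Γ) (η : ℝ) (x : Γ)
    (hx : (1 - η) * (S.card : ℝ) ≤ ((S.filter fun s => s - x ∈ S).card : ℝ))
    (χ : AddChar Γ ℂ) : ‖F S χ‖ * ‖1 - χ x‖ ≤ 2 * η * S.card := by
  set T := S.filter fun s => s - x ∈ S with hT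
  have h1 : χ x * F S χ = ∑ u ∈ S.image (fun s => s + x), χ u := by
    unfold F
    rw [sum_image (fun a _ b _ h => add_right_cancel h), mul_sum]
    refine sum_congr rfl fun s _ => ?_
    rw [AddChar.map_add_eq_mul, mul_comm]
  have hTS : T ⊆ S := filter_subset _ _
  have hTI : T ⊆ S.image (fun s => s + x) := by
    intro u hu
    rw [hT, mem_filter] at hu
    rw [mem_image]
    exact ⟨u - x, hu.2, by abel⟩
  have h2 : F S χ - χ x * F S χ = ∑ u ∈ S \ T, χ u - ∑ u ∈ (S.image (fun s => s + x)) \ T, χ u := by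
    rw [h1]
    have h3 := sum_sdiff hTS (f := fun u => χ u)
    have h4 := sum_sdiff hTI (f := fun u => χ u)
    unfold F
    rw [← h3, ← h4]
    ring
  have h5 : ∀ W : Finset Γ, ‖∑ u ∈ W, χ u‖ ≤ W.card := by
    intro W
    refine (norm_sum_le _ _).trans ?_
    rw [sum_congr rfl fun u _ => AddChar.norm_apply χ u]
    simp
  have hc1 : ((S \ T).card : ℝ) ≤ η * S.card := by
    rw [cast_card_sdiff hTS]
    linarith
  have hc2 : (((S.image (fun s => s + x)) \ T).card : ℝ) ≤ η * S.card := by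
    rw [cast_card_sdiff hTI, card_image_of_injective _ (add_left_injective x)]
    linarith
  calc ‖F S χ‖ * ‖1 - χ x‖ = ‖F S χ - χ x * F S χ‖ := by
        rw [← norm_mul]
        congr 1
        ring
    _ ≤ ‖∑ u ∈ S \ T, χ u‖ + ‖∑ u ∈ (S.image (fun s => s + x)) \ T, χ u‖ := by
        rw [h2]
        exact norm_sub_le _ _
    _ ≤ _ := by
        have := h5 (S \ T)
        have := h5 ((S.image (fun s => s + x)) \ T)
        linarith

end args

section sup

variable {Γ : Type} [AddCommGroup Γ] [Fintype Γ]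

/-- largest argument over the spectrum -/
noncomputable def N (Sp : Finset (AddChar Γ ℂ)) (hne : Sp.Nonempty) (x : Γ) : ℝ :=
  Sp.sup' hne fun χ => |A χ x|

variable {Sp : Finset (AddChar Γ ℂ)} {hne : Sp.Nonempty}

theorem N_le_iff {x : Γ} {r : ℝ} : N Sp hne x ≤ r ↔ ∀ χ ∈ Sp, |A χ x| ≤ r := by
  unfold N
  exact sup'_le_iff _ _

theorem le_N {x : Γ} {χ : AddChar Γ ℂ} (h : χ ∈ Sp) : |A χ x| ≤ N Sp hne x :=
  le_sup' (fun χ => |A χ x|) h

theorem N_mem (x : Γ) : ∃ χ ∈ Sp, N Sp hne x = |A χ x| := by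
  obtain ⟨χ, h1, h2⟩ := exists_mem_eq_sup' hne fun χ => |A χ x|
  exact ⟨χ, h1, h2⟩

theorem N_nonneg (x : Γ) : 0 ≤ N Sp hne x := by
  obtain ⟨χ, _, h⟩ := N_mem (Sp := Sp) (hne := hne) x
  rw [h]
  exact abs_nonneg _

theorem N_zero : N Sp hne 0 = 0 := by
  obtain ⟨χ, _, h⟩ := N_mem (Sp := Sp) (hne := hne) (0 : Γ)
  rw [h, A_zero, abs_zero]

theorem N_neg {x : Γ} (h : N Sp hne x < Real.pi) : N Sp hne (-x) = N Sp hne x := by
  apply le_antisymm
  · rw [N_le_iff]
    intro χ hχ
    have h1 := le_N (hne := hne) (x := x) hχ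
    rw [A_neg χ x (lt_of_le_of_lt h1 h), abs_neg]
    exact h1
  · rw [N_le_iff]
    intro χ hχ
    have h1 := le_N (hne := hne) (x := x) hχ
    have h2 := le_N (hne := hne) (x := -x) hχ
    rw [A_neg χ x (lt_of_le_of_lt h1 h), abs_neg] at h2
    exact h2

theorem N_add {x y : Γ} (h : N Sp hne x + N Sp hne y < Real.pi) :
    N Sp hne (x + y) ≤ N Sp hne x + N Sp hne y := by
  rw [N_le_iff]
  intro χ hχ
  have h1 := le_N (hne := hne) (x := x) hχ
  have h2 := le_N (hne := hne) (x := y) hχ
  rw [A_add χ x y (by linarith)]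
  exact (abs_add_le _ _).trans (add_le_add h1 h2)

theorem N_sub {x y : Γ} (h : N Sp hne x + N Sp hne y < Real.pi) :
    N Sp hne (x - y) ≤ N Sp hne x + N Sp hne y := by
  rw [N_le_iff]
  intro χ hχ
  have h1 := le_N (hne := hne) (x := x) hχ
  have h2 := le_N (hne := hne) (x := y) hχ
  rw [A_sub χ x y (by linarith)]
  exact (abs_sub _ _).trans (add_le_add h1 h2)

theorem N_nsmul {x : Γ} {m : ℕ} (h : m * N Sp hne x < Real.pi) :
    N Sp hne (m • x) = m * N Sp hne x := by
  have hm : (0 : ℝ) ≤ m := Nat.cast_nonneg _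
  have key : ∀ χ ∈ Sp, |A χ (m • x)| = m * |A χ x| := by
    intro χ hχ
    have h1 := le_N (hne := hne) (x := x) hχ
    have h2 : (m : ℝ) * |A χ x| ≤ m * N Sp hne x := mul_le_mul_of_nonneg_left h1 hm
    rw [A_nsmul χ x m (by linarith), abs_mul, Nat.abs_cast]
  apply le_antisymm
  · rw [N_le_iff]
    intro χ hχ
    rw [key χ hχ]
    exact mul_le_mul_of_nonneg_left (le_N hχ) hm
  · obtain ⟨χ, hχ, h1⟩ := N_mem (Sp := Sp) (hne := hne) x
    rw [h1, ← key χ hχ]
    exact le_N hχ

/-- the geometric part -/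
theorem bohr_aux [DecidableEq Γ] (B X : Finset Γ) (D L : ℕ)
    (h8 : ∀ x, N Sp hne x ≤ 1 / 2 → x ∈ ks 8 B)
    (hX : ∀ x ∈ X, N Sp hne x ≤ 1 / 64) (hXne : X.Nonempty)
    (hD : (ks 8 B).card ≤ D * X.card) (hL : B.card ≤ L * X.card) :
    ∃ (Λ : Finset Γ) (θ : Γ → Fin D → ℝ), IsLoc Λ θ ∧ Λ ⊆ ks 8 B ∧
      B.card ≤ L * (bl Λ θ (1 / 2)).card := by
  classical
  have hpi := Real.pi_gt_three
  -- maximal separated set
  set P : Finset Γ := univ.filter fun x => N Sp hne x ≤ 1 / 4 with hP
  set Q : Finset (Finset Γ) := P.powerset.filter fun Y =>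
    ∀ x ∈ Y, ∀ y ∈ Y, x ≠ y → 1 / 32 < N Sp hne (x - y) with hQ
  have hQne : Q.Nonempty := ⟨∅, by
    rw [hQ, mem_filter]
    exact ⟨empty_mem_powerset _, by simp⟩⟩
  obtain ⟨Y, hYQ, hYmax⟩ := exists_max_image Q card hQne
  rw [hQ, mem_filter, mem_powerset] at hYQ
  obtain ⟨hYP, hYsep⟩ := hYQ
  have hYN : ∀ y ∈ Y, N Sp hne y ≤ 1 / 4 := by
    intro y hy
    have := hYP hy
    rw [hP, mem_filter] at this
    exact this.2
  have hnear : ∀ x, N Sp hne x ≤ 1 / 4 → ∃ y ∈ Y, N Sp hne (x - y) ≤ 1 / 32 := by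
    intro x hx
    by_contra hcon
    push Not at hcon
    have hxY : x ∉ Y := by
      intro h
      have := hcon x h
      rw [sub_self, N_zero] at this
      linarith
    have hmem : insert x Y ∈ Q := by
      rw [hQ, mem_filter, mem_powerset]
      constructor
      · intro z hz
        rw [mem_insert] at hz
        rcases hz with rfl | hz
        · rw [hP, mem_filter]
          exact ⟨mem_univ _, hx⟩
        · exact hYP hz
      · intro z hz w hw hzw
        rw [mem_insert] at hz hw
        rcases hz with rfl | hz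
        · rcases hw with rfl | hw
          · exact absurd rfl hzw
          · exact hcon w hw
        · rcases hw with rfl | hw
          · have h1 := hcon z hz
            have h2 : N Sp hne (w - z) < Real.pi := by
              have h3 := hYN z hz
              have h4 := N_sub (Sp := Sp) (hne := hne) (x := w) (y := z) (by linarith)
              linarith
            have h5 := N_neg h2
            rw [neg_sub] at h5
            rw [h5]
            exact h1
          · exact hYsep z hz w hw hzw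
    have := hYmax _ hmem
    rw [card_insert_of_notMem hxY] at this
    omega
  -- the size of Y
  have hYcard : Y.card ≤ D := by
    have hinj : Set.InjOn (fun p : Γ × Γ => p.1 + p.2) (Y ×ˢ X : Finset (Γ × Γ)) := by
      intro p hp q hq hpq
      rw [mem_coe, mem_product] at hp hq
      have hpq' : p.1 + p.2 = q.1 + q.2 := hpq
      have h1 : p.1 = q.1 := by
        by_contra hne'
        have h2 := hYsep _ hp.1 _ hq.1 hne'
        have h3 : p.1 - q.1 = q.2 - p.2 := by
          rw [sub_eq_sub_iff_add_eq_add, hpq']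
          abel
        rw [h3] at h2
        have h4 := hX _ hp.2
        have h5 := hX _ hq.2
        have h6 := N_sub (Sp := Sp) (hne := hne) (x := q.2) (y := p.2) (by linarith)
        linarith
      have h2 : p.2 = q.2 := by
        rw [h1] at hpq'
        exact add_left_cancel hpq'
      exact Prod.ext h1 h2
    have hmaps : ∀ p ∈ (Y ×ˢ X : Finset (Γ × Γ)), p.1 + p.2 ∈ ks 8 B := by
      intro p hp
      rw [mem_product] at hp
      apply h8
      have h1 := hYN _ hp.1
      have h2 := hX _ hp.2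
      have h3 := N_add (Sp := Sp) (hne := hne) (x := p.1) (y := p.2) (by linarith)
      linarith
    have h1 := card_le_card_of_injOn (fun p : Γ × Γ => p.1 + p.2) hmaps hinj
    rw [card_product] at h1
    exact Nat.le_of_mul_le_mul_right (h1.trans hD) hXne.card_pos
  -- the characters
  have hch : ∀ y : Γ, ∃ χ ∈ Sp, N Sp hne y = |A χ y| := fun y => N_mem y
  choose ch hchS hchN using hch
  obtain ⟨c, hcS, hcY⟩ : ∃ c : Fin D → AddChar Γ ℂ, (∀ i, c i ∈ Sp) ∧ ∀ y ∈ Y, ∃ i, c i = ch y := by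
    obtain ⟨χ0, hχ0⟩ := hne
    refine ⟨fun i => if h : (i : ℕ) < Y.card then ch (Y.equivFin.symm ⟨i, h⟩ : Y) else χ0, ?_, ?_⟩
    · intro i
      dsimp only
      split_ifs with h
      · exact hchS _
      · exact hχ0
    · intro y hy
      refine ⟨⟨(Y.equivFin ⟨y, hy⟩ : ℕ), lt_of_lt_of_le (Y.equivFin ⟨y, hy⟩).2 hYcard⟩, ?_⟩
      dsimp only
      rw [dif_pos (Y.equivFin ⟨y, hy⟩).2]
      simp
  -- the key comparison
  have hkey : ∀ x, N Sp hne x ≤ 1 / 8 → ∃ i, N Sp hne x ≤ 2 * |A (c i) x| := by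
    intro x hx
    rcases eq_or_lt_of_le (N_nonneg (Sp := Sp) (hne := hne) x) with h0 | h0
    · obtain ⟨y, hy, _⟩ := hnear x (by linarith)
      obtain ⟨i, _⟩ := hcY y hy
      refine ⟨i, ?_⟩
      rw [← h0]
      positivity
    · set m := ⌈(1 / 8) / N Sp hne x⌉₊ with hm
      have hm1 : 1 / 8 ≤ m * N Sp hne x := by
        have := Nat.le_ceil ((1 / 8) / N Sp hne x)
        rw [div_le_iff₀ h0] at this
        exact this
      have hm2 : m * N Sp hne x ≤ 1 / 4 := by
        have := Nat.ceil_lt_add_one (show 0 ≤ (1 / 8) / N Sp hne x by positivity)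
        rw [← hm] at this
        have h1 : (m : ℝ) * N Sp hne x < ((1 / 8) / N Sp hne x + 1) * N Sp hne x :=
          mul_lt_mul_of_pos_right this h0
        have h2 : ((1 / 8) / N Sp hne x + 1) * N Sp hne x = 1 / 8 + N Sp hne x := by
          field_simp
        linarith
      have hNm : N Sp hne (m • x) = m * N Sp hne x := N_nsmul (by linarith)
      obtain ⟨y, hy, hxy⟩ := hnear (m • x) (by linarith)
      obtain ⟨i, hi⟩ := hcY y hy
      refine ⟨i, ?_⟩
      have hyN := hYN y hy
      have hNy : |A (c i) y| = N Sp hne y := by rw [hi, hchN y]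
      -- N(mx) ≤ N(y) + 1/32
      have h1 : N Sp hne (m • x) ≤ N Sp hne y + 1 / 32 := by
        have h2 := N_add (Sp := Sp) (hne := hne) (x := y) (y := m • x - y) (by linarith)
        rw [add_sub_cancel] at h2
        linarith
      have h2 : |A (c i) (m • x)| = m * |A (c i) x| := by
        have h3 := le_N (hne := hne) (x := x) (hcS i)
        have h4 : (m : ℝ) * |A (c i) x| ≤ m * N Sp hne x :=
          mul_le_mul_of_nonneg_left h3 (Nat.cast_nonneg _)
        rw [A_nsmul _ x m (by linarith), abs_mul, Nat.abs_cast]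
      have h3 : |A (c i) (m • x - y)| ≤ 1 / 32 := (le_N (hcS i)).trans hxy
      have h4 : A (c i) (m • x) = A (c i) y + A (c i) (m • x - y) := by
        rw [← A_add _ _ _ (by linarith), add_sub_cancel]
      have h5 : |A (c i) y| - |A (c i) (m • x - y)| ≤ |A (c i) (m • x)| := by
        rw [h4]
        have := abs_sub_abs_le_abs_add (A (c i) y) (A (c i) (m • x - y))
        exact this
      have h6 : N Sp hne (m • x) / 2 ≤ |A (c i) (m • x)| := by linarith
      rw [hNm, h2] at h6
      have hmpos : (0 : ℝ) < m := by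
        by_contra hcon
        have : (m : ℝ) = 0 := le_antisymm (not_lt.mp hcon) (Nat.cast_nonneg _)
        rw [this, zero_mul] at hm1
        linarith
      have h7 : (m : ℝ) * N Sp hne x ≤ m * (2 * |A (c i) x|) := by linarith
      exact le_of_mul_le_mul_left h7 hmpos
  -- the local structure
  set Λ : Finset Γ := univ.filter fun x => N Sp hne x ≤ 1 / 8 ∧ ∀ i, |A (c i) x| ≤ 1 / 32 with hΛ
  have hmemΛ : ∀ x, x ∈ Λ ↔ N Sp hne x ≤ 1 / 8 ∧ ∀ i, |A (c i) x| ≤ 1 / 32 := by
    intro x
    rw [hΛ, mem_filter]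
    simp
  refine ⟨Λ, fun x i => 32 * A (c i) x, ?_, ?_, ?_⟩
  · have hcoord : ∀ (x : Γ) (i : Fin D), 32 * |A (c i) x| ≤ ‖fun i => 32 * A (c i) x‖ := by
      intro x i
      have := norm_le_pi_norm (fun i => 32 * A (c i) x) i
      rw [Real.norm_eq_abs, abs_mul] at this
      simpa using this
    have hNn : ∀ x ∈ Λ, N Sp hne x ≤ 1 / 16 * ‖fun i => 32 * A (c i) x‖ := by
      intro x hx
      obtain ⟨i, hi⟩ := hkey x ((hmemΛ x).mp hx).1
      have := hcoord x i
      linarith
    constructor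
    · constructor
      · rw [hmemΛ, N_zero]
        refine ⟨by norm_num, fun i => ?_⟩
        rw [A_zero, abs_zero]
        norm_num
      · funext i
        simp [A_zero]
    · intro x hx
      rw [hmemΛ] at hx
      have hA : ∀ i, A (c i) (-x) = -A (c i) x := by
        intro i
        apply A_neg
        have := hx.2 i
        linarith
      constructor
      · rw [hmemΛ, N_neg (by linarith [hx.1])]
        refine ⟨hx.1, fun i => ?_⟩
        rw [hA, abs_neg]
        exact hx.2 i
      · funext i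
        simp [hA i]
    · intro x hx
      rw [hmemΛ] at hx
      rw [pi_norm_le_iff_of_nonneg zero_le_one]
      intro i
      rw [Real.norm_eq_abs, abs_mul]
      have := hx.2 i
      norm_num
      linarith
    · intro x hx y hy hxy
      have hx1 := (hmemΛ x).mp hx
      have hy1 := (hmemΛ y).mp hy
      have hA : ∀ i, A (c i) (x + y) = A (c i) x + A (c i) y := by
        intro i
        apply A_add
        have := hx1.2 i
        have := hy1.2 i
        linarith
      constructor
      · rw [hmemΛ]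
        constructor
        · have h1 := hNn x hx
          have h2 := hNn y hy
          have h3 := N_add (Sp := Sp) (hne := hne) (x := x) (y := y) (by linarith)
          linarith
        · intro i
          rw [hA i]
          have h1 := hcoord x i
          have h2 := hcoord y i
          have h3 := abs_add_le (A (c i) x) (A (c i) y)
          linarith
      · funext i
        simp only [Pi.add_apply]
        rw [hA i]
        ring
  · intro x hx
    rw [hmemΛ] at hx
    exact h8 x (by linarith [hx.1])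
  · refine hL.trans (Nat.mul_le_mul_left _ (card_le_card ?_))
    intro x hx
    have h1 := hX x hx
    have h2 : ∀ i, |A (c i) x| ≤ 1 / 64 := fun i => (le_N (hcS i)).trans h1
    rw [mem_bl, hmemΛ]
    refine ⟨⟨by linarith, fun i => by linarith [h2 i]⟩, ?_⟩
    rw [pi_norm_le_iff_of_nonneg (by norm_num)]
    intro i
    rw [Real.norm_eq_abs, abs_mul]
    have := h2 i
    norm_num
    linarith

end sup

/-- Bohr structure: the third lemma. -/
theorem bohr (K : ℕ) : ∃ D L : ℕ, ∀ (Γ : Type) [AddCommGroup Γ] [Fintype Γ] [DecidableEq Γ]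
    (B : Finset Γ), B.Nonempty → -B = B → (B + B + B).card ≤ K * B.card →
    ∃ (Λ : Finset Γ) (θ : Γ → Fin D → ℝ), IsLoc Λ θ ∧ Λ ⊆ ks 8 B ∧
      B.card ≤ L * (bl Λ θ (1 / 2)).card := by
  classical
  obtain ⟨L, hL⟩ := sanders K (1 / (512 * ((K : ℝ) ^ 2 + 1))) (by positivity)
  refine ⟨K ^ 6 * L, L, ?_⟩
  intro Γ _ _ _ B hB hsym h3
  have hBpos := hB.card_pos
  have hK1 : 1 ≤ K := by
    by_contra hcon
    have : K = 0 := by omega
    rw [this, zero_mul] at h3
    have := ((hB.add hB).add hB).card_pos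
    omega
  have hBB : (B + B).card ≤ K * B.card := (card_le_card_add_right hB).trans h3
  obtain ⟨S, X, hS1, hS2, hX1, hX2⟩ := hL Γ B hB hsym hBB
  have hSne : S.Nonempty := by
    rw [← card_pos]
    omega
  have hks4 : S + S ⊆ ks 4 B := by
    refine (add_subset_add hS2 hS2).trans ?_
    rw [ks_eq_nsmul, show (4 : ℕ) • B = B + B + (B + B) by
      rw [show (4 : ℕ) = 2 + 2 from rfl, add_nsmul, two_nsmul]]
  have hSS : (S + S).card ≤ K ^ 2 * S.card := by
    calc (S + S).card ≤ (ks 4 B).card := card_le_card hks4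
      _ ≤ K ^ 2 * B.card := card_ks_le K B hsym h3 4 (by norm_num)
      _ ≤ K ^ 2 * S.card := Nat.mul_le_mul_left _ hS1
  set Sp : Finset (AddChar Γ ℂ) := univ.filter fun χ =>
    (S.card : ℝ) ≤ 2 * ((K ^ 2 : ℕ) : ℝ) * ‖∑ s ∈ S, χ s‖ with hSp
  have hSpos : (0 : ℝ) < S.card := by exact_mod_cast hSne.card_pos
  have hK2 : (1 : ℝ) ≤ ((K ^ 2 : ℕ) : ℝ) := by exact_mod_cast Nat.one_le_pow _ _ hK1
  have hne : Sp.Nonempty := by
    refine ⟨1, ?_⟩
    rw [hSp, mem_filter]
    refine ⟨mem_univ _, ?_⟩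
    have : ‖∑ s ∈ S, (1 : AddChar Γ ℂ) s‖ = S.card := by simp
    rw [this]
    nlinarith
  have hXne : X.Nonempty := by
    rw [← card_pos]
    by_contra hcon
    have : X.card = 0 := by omega
    rw [this, mul_zero] at hX1
    omega
  apply bohr_aux (Sp := Sp) (hne := hne) B X (K ^ 6 * L) L
  · intro x hx
    have h1 := bogo (K ^ 2) Γ S hSne hSS x (by
      intro χ hχ
      rw [N_le_iff] at hx
      apply hx χ
      rw [hSp, mem_filter]
      exact ⟨mem_univ _, hχ⟩)
    have h2 : (S + S) - (S + S) ⊆ ks 8 B := by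
      have h3 := neg_ks B hsym 4
      have h4 : (S + S) - (S + S) ⊆ ks 4 B + ks 4 B := by
        intro z hz
        obtain ⟨u, hu, v, hv, rfl⟩ := mem_sub.mp hz
        rw [sub_eq_add_neg]
        refine add_mem_add (hks4 hu) ?_
        rw [← h3]
        exact neg_mem_neg (hks4 hv)
      refine h4.trans ?_
      rw [ks_eq_nsmul, ks_eq_nsmul, ← add_nsmul]
    exact h2 h1
  · intro x hx
    rw [N_le_iff]
    intro χ hχ
    rw [hSp, mem_filter] at hχ
    have h1 := almost_period S _ x (hX2 x hx) χ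
    have h2 : (S.card : ℝ) ≤ 2 * ((K ^ 2 : ℕ) : ℝ) * ‖F S χ‖ := hχ.2
    have hFpos : 0 < ‖F S χ‖ := by
      rcases eq_or_lt_of_le (norm_nonneg (F S χ)) with h | h
      · rw [← h, mul_zero] at h2
        linarith
      · exact h
    have h3 : ‖F S χ‖ * ‖1 - χ x‖ ≤ ‖F S χ‖ * (1 / 128) := by
      refine h1.trans ?_
      have h4 : 2 * (1 / (512 * ((K : ℝ) ^ 2 + 1))) * S.card ≤
          2 * (1 / (512 * ((K : ℝ) ^ 2 + 1))) * (2 * ((K ^ 2 : ℕ) : ℝ) * ‖F S χ‖) :=
        mul_le_mul_of_nonneg_left h2 (by positivity)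
      refine h4.trans ?_
      push_cast
      have h5 : 2 * (1 / (512 * ((K : ℝ) ^ 2 + 1))) * (2 * (K : ℝ) ^ 2 * ‖F S χ‖) =
          ‖F S χ‖ * (1 / 128) * ((K : ℝ) ^ 2 / ((K : ℝ) ^ 2 + 1)) := by
        field_simp
        ring
      rw [h5]
      have h6 : (K : ℝ) ^ 2 / ((K : ℝ) ^ 2 + 1) ≤ 1 := by
        rw [div_le_one (by positivity)]
        linarith
      have h7 : 0 ≤ ‖F S χ‖ * (1 / 128) := by positivity
      exact mul_le_of_le_one_right h7 h6
    have h4 : ‖1 - χ x‖ ≤ 1 / 128 := le_of_mul_le_mul_left h3 hFpos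
    have h5 := abs_A_le χ x
    have hpi := Real.pi_lt_four
    have hpi0 := Real.pi_pos
    calc |A χ x| ≤ Real.pi / 2 * ‖1 - χ x‖ := h5
      _ ≤ Real.pi / 2 * (1 / 128) := mul_le_mul_of_nonneg_left h4 (by positivity)
      _ ≤ 1 / 64 := by linarith
  · exact hXne
  · calc (ks 8 B).card ≤ K ^ 6 * B.card := card_ks_le K B hsym h3 8 (by norm_num)
      _ ≤ K ^ 6 * (L * X.card) := Nat.mul_le_mul_left _ hX1
      _ = K ^ 6 * L * X.card := by ring
  · exact hX1

end Pool.Agent.K4H16.GS
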